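import Pool.Agent.Y282.WD.Stm

set_option autoImplicit false

/-! Decomposition of `f₀` near the integers. -/

open Filter Topology Metric Set

namespace Pool.Agent.Y48.WD

open Pool.Agent.Y282.WD Pool.Agent.H723R2.LSW

theorem dpi (z : ℂ) : HasDerivAt (fun z : ℂ => (Real.pi : ℂ) * z) Real.pi z := by
  simpa using (hasDerivAt_id z).const_mul (Real.pi : ℂ)

theorem dcos (z : ℂ) : HasDerivAt (fun z : ℂ => Complex.cos (Real.pi * z))
    (-Complex.sin (Real.pi * z) * Real.pi) z := (Complex.hasDerivAt_cos _).comp z (dpi z)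

theorem dsin (z : ℂ) : HasDerivAt (fun z : ℂ => Complex.sin (Real.pi * z))
    (Complex.cos (Real.pi * z) * Real.pi) z := (Complex.hasDerivAt_sin _).comp z (dpi z)

noncomputable def fA (h : ℂ) : ℂ := h - 1 / Real.pi * (Complex.cos (Real.pi * h) *
    Complex.sin (Real.pi * h))
noncomputable def fB (h : ℂ) : ℂ := 1 / Real.pi * Complex.sin (Real.pi * h) -
    h * Complex.cos (Real.pi * h)
noncomputable def fD (h : ℂ) : ℂ := 1 - Complex.cos (Real.pi * h)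

theorem pi0 : (Real.pi : ℂ) ≠ 0 := by exact_mod_cast Real.pi_ne_zero

theorem dA (h : ℂ) : HasDerivAt fA (2 * Complex.sin (Real.pi * h) ^ 2) h := by
  have h1 := (hasDerivAt_id h).sub (((dcos h).mul (dsin h)).const_mul (1 / (Real.pi : ℂ)))
  have h2 : HasDerivAt fA (1 - 1 / Real.pi * ((-Complex.sin (Real.pi * h) * Real.pi) *
      Complex.sin (Real.pi * h) + Complex.cos (Real.pi * h) *
        (Complex.cos (Real.pi * h) * Real.pi))) h := h1
  convert h2 using 1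
  have := Complex.sin_sq_add_cos_sq ((Real.pi : ℂ) * h)
  have hpi := pi0
  field_simp
  linear_combination this

theorem dB (h : ℂ) : HasDerivAt fB (Real.pi * h * Complex.sin (Real.pi * h)) h := by
  have h1 := ((dsin h).const_mul (1 / (Real.pi : ℂ))).sub ((hasDerivAt_id h).mul (dcos h))
  have h2 : HasDerivAt fB (1 / Real.pi * (Complex.cos (Real.pi * h) * Real.pi) -
      (1 * Complex.cos (Real.pi * h) + h * (-Complex.sin (Real.pi * h) * Real.pi))) h := h1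
  convert h2 using 1
  have hpi := pi0
  field_simp
  ring

theorem dD (h : ℂ) : HasDerivAt fD (Real.pi * Complex.sin (Real.pi * h)) h := by
  have h1 : HasDerivAt fD (-(-Complex.sin (Real.pi * h) * Real.pi)) h := (dcos h).const_sub 1
  exact h1.congr_deriv (by ring)

/-- the decomposition at an integer -/
theorem decomp (m : ℤ) : ∃ ε : ℂ, ‖ε‖ = 1 ∧ ∀ h : ℂ, f₀ (m + h) - (T m : ℂ) =
    fA h + ε / 2 * fB h + ε / 2 * ((m : ℂ) + 1 / 2) * fD h := by
  have hpi0 := pi0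
  have hsm : Complex.sin (Real.pi * (m : ℂ)) = 0 := by
    rw [mul_comm]; exact Complex.sin_int_mul_pi m
  obtain ⟨ε, hε, hcm⟩ : ∃ ε : ℂ, (ε = 1 ∨ ε = -1) ∧ Complex.cos (Real.pi * (m : ℂ)) = ε := by
    refine ⟨_, ?_, rfl⟩
    have := Complex.sin_sq_add_cos_sq ((Real.pi : ℂ) * (m : ℂ))
    rw [hsm] at this
    have h2 : Complex.cos (Real.pi * (m : ℂ)) ^ 2 = 1 := by simpa using this
    have h3 : (Complex.cos (Real.pi * (m : ℂ)) - 1) * (Complex.cos (Real.pi * (m : ℂ)) + 1) = 0 := by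
      linear_combination h2
    rcases mul_eq_zero.1 h3 with h4 | h4
    · exact Or.inl (by linear_combination h4)
    · exact Or.inr (by linear_combination h4)
  have hε2 : ε ^ 2 = 1 := by rcases hε with rfl | rfl <;> norm_num
  refine ⟨ε, by rcases hε with rfl | rfl <;> norm_num, fun h => ?_⟩
  have hT : (T m : ℂ) = m / 2 + (m + 1 / 2) * ((1 - ε) / 2) := by
    rw [← f₀_int]; unfold f₀; rw [hsm, hcm]; ring
  have e1 : Complex.cos (Real.pi * ((m : ℂ) + h)) = ε * Complex.cos (Real.pi * h) := by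
    rw [mul_add, Complex.cos_add, hsm, hcm]; ring
  have e2 : Complex.sin (Real.pi * ((m : ℂ) + h)) = ε * Complex.sin (Real.pi * h) := by
    rw [mul_add, Complex.sin_add, hsm, hcm]; ring
  unfold f₀
  rw [hT, e1, e2]
  simp only [fA, fB, fD]
  linear_combination (-1 / (Real.pi : ℂ) * Complex.cos (Real.pi * h) *
    Complex.sin (Real.pi * h)) * hε2

/-- mean value inequality -/
theorem mv {F F' : ℂ → ℂ} (hF : ∀ z, HasDerivAt F (F' z) z) (h0 : F 0 = 0) {C : ℝ} {k : ℕ}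
    (hC : 0 ≤ C) (hb : ∀ h : ℂ, ‖h‖ ≤ 1 → ‖F' h‖ ≤ C * ‖h‖ ^ k) (h : ℂ) (hh : ‖h‖ ≤ 1) :
    ‖F h‖ ≤ C * ‖h‖ ^ (k + 1) := by
  have h1 := (convex_closedBall (0 : ℂ) ‖h‖).norm_image_sub_le_of_norm_hasDerivWithin_le
    (f := F) (f' := F') (C := C * ‖h‖ ^ k) (x := 0) (y := h)
    (fun x _ => (hF x).hasDerivWithinAt)
    (fun x hx => by
      have hx' : ‖x‖ ≤ ‖h‖ := by simpa using hx
      refine (hb x (hx'.trans hh)).trans ?_
      gcongr)
    (by simp) (by simp)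
  rw [h0, sub_zero, sub_zero] at h1
  calc ‖F h‖ ≤ C * ‖h‖ ^ k * ‖h‖ := h1
    _ = C * ‖h‖ ^ (k + 1) := by ring

theorem sin_up : ∃ C : ℝ, 0 ≤ C ∧ ∀ h : ℂ, ‖h‖ ≤ 1 → ‖Complex.sin (Real.pi * h)‖ ≤ C * ‖h‖ := by
  have hc : Continuous (fun z : ℂ => Complex.cos (Real.pi * z) * Real.pi) := by fun_prop
  obtain ⟨C, hC⟩ := (isCompact_closedBall (0 : ℂ) 1).exists_bound_of_continuousOn
    hc.continuousOn
  refine ⟨max C 0, le_max_right _ _, fun h hh => ?_⟩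
  have := mv (C := max C 0) (k := 0) dsin (by simp) (le_max_right _ _) (fun h hh => by
    rw [pow_zero, mul_one]
    exact (hC h (by simpa using hh)).trans (le_max_left _ _)) h hh
  simpa using this

theorem A_up : ∃ C : ℝ, 0 ≤ C ∧ ∀ h : ℂ, ‖h‖ ≤ 1 →
    ‖2 * Complex.sin (Real.pi * h) ^ 2‖ ≤ C * ‖h‖ ^ 2 ∧ ‖fA h‖ ≤ C * ‖h‖ ^ 3 := by
  obtain ⟨C, hC, hs⟩ := sin_up
  have hb : ∀ h : ℂ, ‖h‖ ≤ 1 → ‖2 * Complex.sin (Real.pi * h) ^ 2‖ ≤ (2 * C ^ 2) * ‖h‖ ^ 2 := by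
    intro h hh
    rw [norm_mul, norm_pow]
    have := hs h hh
    calc ‖(2 : ℂ)‖ * ‖Complex.sin (Real.pi * h)‖ ^ 2 ≤ 2 * (C * ‖h‖) ^ 2 := by
          have e : ‖(2 : ℂ)‖ = 2 := by norm_num
          rw [e]
          gcongr
      _ = _ := by ring
  exact ⟨2 * C ^ 2, by positivity, fun h hh => ⟨hb h hh,
    mv dA (by simp [fA]) (by positivity) hb h hh⟩⟩

theorem B_up : ∃ C : ℝ, 0 ≤ C ∧ ∀ h : ℂ, ‖h‖ ≤ 1 →
    ‖Real.pi * h * Complex.sin (Real.pi * h)‖ ≤ C * ‖h‖ ^ 2 ∧ ‖fB h‖ ≤ C * ‖h‖ ^ 3 := by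
  obtain ⟨C, hC, hs⟩ := sin_up
  have hpi := Real.pi_pos
  have hb : ∀ h : ℂ, ‖h‖ ≤ 1 → ‖Real.pi * h * Complex.sin (Real.pi * h)‖ ≤
      (Real.pi * C) * ‖h‖ ^ 2 := by
    intro h hh
    rw [norm_mul, norm_mul]
    have := hs h hh
    have e : ‖(Real.pi : ℂ)‖ = Real.pi := by
      rw [Complex.norm_real, Real.norm_eq_abs, abs_of_pos hpi]
    rw [e]
    calc Real.pi * ‖h‖ * ‖Complex.sin (Real.pi * h)‖ ≤ Real.pi * ‖h‖ * (C * ‖h‖) := by gcongr
      _ = _ := by ring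
  exact ⟨Real.pi * C, by positivity, fun h hh => ⟨hb h hh,
    mv dB (by simp [fB]) (by positivity) hb h hh⟩⟩

theorem E_up : ∃ C : ℝ, 0 ≤ C ∧ ∀ h : ℂ, ‖h‖ ≤ 1 →
    ‖fD h - Real.pi ^ 2 * h ^ 2 / 2‖ ≤ C * ‖h‖ ^ 4 := by
  obtain ⟨C, hC, hs⟩ := sin_up
  have hpi := Real.pi_pos
  have e : ‖(Real.pi : ℂ)‖ = Real.pi := by
    rw [Complex.norm_real, Real.norm_eq_abs, abs_of_pos hpi]
  refine ⟨Real.pi ^ 3 * C, by positivity, ?_⟩
  have b1 : ∀ h : ℂ, ‖h‖ ≤ 1 → ‖(Real.pi : ℂ) ^ 2 * (-Complex.sin (Real.pi * h) * Real.pi)‖ ≤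
      (Real.pi ^ 3 * C) * ‖h‖ ^ 1 := by
    intro h hh
    rw [norm_mul, norm_mul, norm_neg, norm_pow, e]
    have := hs h hh
    calc Real.pi ^ 2 * (‖Complex.sin (Real.pi * h)‖ * Real.pi) ≤
        Real.pi ^ 2 * ((C * ‖h‖) * Real.pi) := by gcongr
      _ = _ := by ring
  have b2 := mv (F := fun h => (Real.pi : ℂ) ^ 2 * (Complex.cos (Real.pi * h) - 1))
    (F' := fun h => (Real.pi : ℂ) ^ 2 * (-Complex.sin (Real.pi * h) * Real.pi))
    (fun z => ((dcos z).sub_const 1).const_mul _) (by simp) (by positivity) b1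
  have b3 := mv (F := fun h => (Real.pi : ℂ) * Complex.sin (Real.pi * h) - Real.pi ^ 2 * h)
    (F' := fun h => (Real.pi : ℂ) ^ 2 * (Complex.cos (Real.pi * h) - 1))
    (fun z => by
      have h1 := ((dsin z).const_mul (Real.pi : ℂ)).sub
        ((hasDerivAt_id z).const_mul ((Real.pi : ℂ) ^ 2))
      refine h1.congr_deriv ?_
      ring) (by simp) (by positivity) b2
  exact mv (F := fun h => fD h - Real.pi ^ 2 * h ^ 2 / 2)
    (F' := fun h => (Real.pi : ℂ) * Complex.sin (Real.pi * h) - Real.pi ^ 2 * h)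
    (fun z => by
      have h1 := (dD z).sub ((((hasDerivAt_id z).pow 2).const_mul ((Real.pi : ℂ) ^ 2)).div_const 2)
      refine h1.congr_deriv ?_
      simp
      ring) (by simp [fD]) (by positivity) b3

end Pool.Agent.Y48.WD
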