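import Pool.Agent.Y282.WD.Stm

set_option autoImplicit false

/-! `f₀` is large on large squares. -/

open Filter Topology Metric Set

namespace Pool.Agent.Y48.WD

open Pool.Agent.Y282.WD Pool.Agent.H723R2.LSW

theorem cos_uv (u v : ℝ) : Complex.cos ((u : ℂ) + (v : ℂ) * Complex.I) =
    ⟨Real.cos u * Real.cosh v, -(Real.sin u * Real.sinh v)⟩ := by
  rw [Complex.cos_add_mul_I]
  apply Complex.ext <;> simp [Complex.cos_ofReal_re, Complex.sin_ofReal_re, Complex.sinh_ofReal_re, Complex.cosh_ofReal_re]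

theorem sin_uv (u v : ℝ) : Complex.sin ((u : ℂ) + (v : ℂ) * Complex.I) =
    ⟨Real.sin u * Real.cosh v, Real.cos u * Real.sinh v⟩ := by
  rw [Complex.sin_add_mul_I]
  apply Complex.ext <;> simp [Complex.cos_ofReal_re, Complex.sin_ofReal_re, Complex.sinh_ofReal_re, Complex.cosh_ofReal_re]

theorem pi_pt (x y : ℝ) : (Real.pi : ℂ) * (⟨x, y⟩ : ℂ) = ((Real.pi * x : ℝ) : ℂ) +
    ((Real.pi * y : ℝ) : ℂ) * Complex.I := by
  apply Complex.ext <;> simp [Complex.cos_ofReal_re, Complex.sin_ofReal_re, Complex.sinh_ofReal_re, Complex.cosh_ofReal_re]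

theorem cos_pt (x y : ℝ) : Complex.cos (Real.pi * (⟨x, y⟩ : ℂ)) =
    ⟨Real.cos (Real.pi * x) * Real.cosh (Real.pi * y),
      -(Real.sin (Real.pi * x) * Real.sinh (Real.pi * y))⟩ := by
  rw [pi_pt, cos_uv]

theorem sin_pt (x y : ℝ) : Complex.sin (Real.pi * (⟨x, y⟩ : ℂ)) =
    ⟨Real.sin (Real.pi * x) * Real.cosh (Real.pi * y),
      Real.cos (Real.pi * x) * Real.sinh (Real.pi * y)⟩ := by
  rw [pi_pt, sin_uv]

/-- real and imaginary part of `f₀` on a vertical line where the cosine vanishes -/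
theorem f0_line (x y s : ℝ) (hc : Real.cos (Real.pi * x) = 0) (hs : Real.sin (Real.pi * x) = s) :
    (f₀ ⟨x, y⟩).re = x + 1 / 4 - s * (y * Real.sinh (Real.pi * y)) / 2 +
      s * Real.cosh (Real.pi * y) / (2 * Real.pi) ∧
    (f₀ ⟨x, y⟩).im = y + s * Real.sinh (Real.pi * y) * (x + 1 / 2) / 2 +
      s ^ 2 * Real.sinh (Real.pi * y) * Real.cosh (Real.pi * y) / Real.pi := by
  have hpi := Real.pi_ne_zero
  have h1 : (1 : ℂ) / Real.pi = ⟨1 / Real.pi, 0⟩ := by
    apply Complex.ext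
    · rw [← Complex.ofReal_one, ← Complex.ofReal_div, Complex.ofReal_re]
    · rw [← Complex.ofReal_one, ← Complex.ofReal_div, Complex.ofReal_im]
  have h2 : (1 : ℂ) / 2 = ⟨1 / 2, 0⟩ := by
    apply Complex.ext <;> norm_num
  have e : f₀ ⟨x, y⟩ = (⟨x, y⟩ : ℂ) * ⟨1 / 2, 0⟩ + ((⟨x, y⟩ : ℂ) + ⟨1 / 2, 0⟩) *
      ((1 - Complex.cos (Real.pi * (⟨x, y⟩ : ℂ))) * ⟨1 / 2, 0⟩) + ⟨1 / Real.pi, 0⟩ *
      ((⟨1 / 2, 0⟩ : ℂ) - Complex.cos (Real.pi * (⟨x, y⟩ : ℂ))) *
        Complex.sin (Real.pi * (⟨x, y⟩ : ℂ)) := by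
    unfold f₀
    rw [← h1, ← h2]
    ring
  rw [e, cos_pt, sin_pt, hc, hs]
  constructor
  · simp
    field_simp
    ring
  · simp
    field_simp
    ring

theorem sinh_abs_ge (y : ℝ) : |y| ≤ |Real.sinh (Real.pi * y)| := by
  have hpi := Real.pi_gt_three
  rcases le_total 0 y with h | h
  · have h1 : Real.pi * y ≤ Real.sinh (Real.pi * y) := Real.self_le_sinh_iff.2 (by positivity)
    rw [abs_of_nonneg h]
    refine le_trans ?_ (le_abs_self _)
    nlinarith
  · have h1 : Real.sinh (Real.pi * y) ≤ Real.pi * y :=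
      Real.sinh_le_self_iff.2 (by nlinarith)
    rw [abs_of_nonpos h]
    refine le_trans ?_ (neg_le_abs _)
    nlinarith

/-- on the vertical sides -/
theorem side_v (a : ℝ) (ha : 1 ≤ a) (s x y : ℝ) (hs : s = 1 ∨ s = -1) (hx : x = s * a)
    (hc : Real.cos (Real.pi * x) = 0) (hsn : Real.sin (Real.pi * x) = s) :
    a / 20 - 1 ≤ ‖f₀ ⟨x, y⟩‖ := by
  obtain ⟨hre, him⟩ := f0_line x y s hc hsn
  have hpi := Real.pi_gt_three
  have hpi4 := Real.pi_lt_four
  have hCh : 1 ≤ Real.cosh (Real.pi * y) := Real.one_le_cosh _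
  have hSy := sinh_abs_ge y
  set S := Real.sinh (Real.pi * y) with hS
  set Ch := Real.cosh (Real.pi * y) with hCh'
  have hyS : y * S = |y| * |S| := by
    rcases le_total 0 y with h | h
    · have : 0 ≤ S := Real.sinh_nonneg_iff.2 (by positivity)
      rw [abs_of_nonneg h, abs_of_nonneg this]
    · have : S ≤ 0 := Real.sinh_nonpos_iff.2 (by nlinarith)
      rw [abs_of_nonpos h, abs_of_nonpos this]
      ring
  have hCp : 1 / 4 ≤ Ch / Real.pi := by
    rw [div_le_div_iff₀ (by norm_num) (by linarith)]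
    linarith
  by_cases hSb : 1 / 10 ≤ |S|
  · -- the imaginary part is large
    have h1 : |(f₀ ⟨x, y⟩).im| ≤ ‖f₀ ⟨x, y⟩‖ := Complex.abs_im_le_norm _
    have h2 : a / 2 * |S| ≤ |(f₀ ⟨x, y⟩).im| := by
      have e : (f₀ ⟨x, y⟩).im = y + S * (s * (x + 1 / 2) / 2 + s ^ 2 * (Ch / Real.pi)) := by
        rw [him]; ring
      have hs2 : s ^ 2 = 1 := by rcases hs with rfl | rfl <;> norm_num
      have hW : a / 2 ≤ s * (x + 1 / 2) / 2 + s ^ 2 * (Ch / Real.pi) := by
        rw [hs2, hx]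
        have : s * (s * a + 1 / 2) = a + s / 2 := by linear_combination a * hs2
        rw [this]
        rcases hs with rfl | rfl <;> linarith
      set W := s * (x + 1 / 2) / 2 + s ^ 2 * (Ch / Real.pi) with hWd
      rw [e]
      have hy0 : 0 ≤ |y| := abs_nonneg _
      rcases le_total 0 y with h | h
      · have h0 : 0 ≤ S := Real.sinh_nonneg_iff.2 (by positivity)
        rw [abs_of_nonneg h0]
        refine le_trans ?_ (le_abs_self _)
        nlinarith
      · have h0 : S ≤ 0 := Real.sinh_nonpos_iff.2 (by nlinarith)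
        rw [abs_of_nonpos h0]
        refine le_trans ?_ (neg_le_abs _)
        nlinarith
    nlinarith
  · push Not at hSb
    have h1 : |(f₀ ⟨x, y⟩).re| ≤ ‖f₀ ⟨x, y⟩‖ := Complex.abs_re_le_norm _
    have h2 : y * S ≤ 1 / 100 := by
      rw [hyS]
      have h3 : |y| ≤ 1 / 10 := hSy.trans hSb.le
      have h4 := abs_nonneg y
      have h5 := abs_nonneg S
      nlinarith
    have h3 : 0 ≤ y * S := by rw [hyS]; positivity
    have h6 : s * Ch / (2 * Real.pi) = s * (Ch / Real.pi) / 2 := by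
      field_simp
    rw [h6] at hre
    rcases hs with rfl | rfl
    · have : a - 1 ≤ (f₀ ⟨x, y⟩).re := by
        rw [hre, hx]
        nlinarith
      have := this.trans (le_abs_self _)
      linarith
    · have : a - 1 ≤ -(f₀ ⟨x, y⟩).re := by
        rw [hre, hx]
        nlinarith
      have := this.trans (neg_le_abs _)
      linarith

theorem sinh_big (a : ℝ) (ha : 0 ≤ a) : 2 * a ^ 2 ≤ Real.sinh (Real.pi * a) := by
  have hpi := Real.pi_gt_three
  have h1 : 1 + Real.pi * a + (Real.pi * a) ^ 2 / 2 ≤ Real.exp (Real.pi * a) :=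
    Real.quadratic_le_exp_of_nonneg (by positivity)
  have h2 : Real.exp (-(Real.pi * a)) ≤ 1 := Real.exp_le_one_iff.2 (by
    have : 0 ≤ Real.pi * a := by positivity
    linarith)
  rw [Real.sinh_eq]
  have h3 : 9 * a ^ 2 ≤ (Real.pi * a) ^ 2 := by
    rw [mul_pow]
    have : 9 ≤ Real.pi ^ 2 := by nlinarith
    gcongr
  have h4 : 0 ≤ Real.pi * a := by positivity
  nlinarith

/-- on the horizontal sides -/
theorem side_h (a : ℝ) (ha : 4 ≤ a) (x y : ℝ) (hy : |y| = a) (hx : |x| ≤ a) :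
    a ≤ ‖f₀ ⟨x, y⟩‖ := by
  have hpi := Real.pi_gt_three
  have hpi4 := Real.pi_lt_four
  have hsb := sinh_big a (by linarith)
  set s := Real.sinh (Real.pi * a) with hs
  have hs0 : 0 ≤ s := by nlinarith
  have hS : |Real.sinh (Real.pi * y)| = s := by
    rcases le_total 0 y with h | h
    · rw [abs_of_nonneg h] at hy
      rw [hy, abs_of_nonneg hs0]
    · rw [abs_of_nonpos h] at hy
      have : y = -a := by linarith
      rw [this, mul_neg, Real.sinh_neg, abs_neg, abs_of_nonneg hs0]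
  have hC : Real.cosh (Real.pi * y) ≤ s + 1 := by
    have h1 : Real.cosh (Real.pi * y) = Real.cosh (Real.pi * a) := by
      rcases le_total 0 y with h | h
      · rw [abs_of_nonneg h] at hy
        rw [hy]
      · rw [abs_of_nonpos h] at hy
        have : y = -a := by linarith
        rw [this, mul_neg, Real.cosh_neg]
    rw [h1, hs, Real.cosh_eq, Real.sinh_eq]
    have h2 : Real.exp (-(Real.pi * a)) ≤ 1 := Real.exp_le_one_iff.2 (by
      have : 0 ≤ Real.pi * a := by positivity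
      linarith)
    linarith
  have hC0 : 0 ≤ Real.cosh (Real.pi * y) := (Real.cosh_pos _).le
  have hS2 : Real.sinh (Real.pi * y) ^ 2 = s ^ 2 := by rw [← sq_abs, hS]
  have hC2 : Real.cosh (Real.pi * y) ^ 2 = s ^ 2 + 1 := by
    rw [← hS2]
    exact Real.cosh_sq _
  have hsc := Real.sin_sq_add_cos_sq (Real.pi * x)
  set z : ℂ := ⟨x, y⟩ with hz
  have n1 : ‖Complex.cos (Real.pi * z)‖ ^ 2 = Real.cos (Real.pi * x) ^ 2 + s ^ 2 := by
    rw [hz, cos_pt, ← Complex.normSq_eq_norm_sq, Complex.normSq_mk]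
    linear_combination Real.cos (Real.pi * x) ^ 2 * hC2 + Real.sin (Real.pi * x) ^ 2 * hS2 +
      s ^ 2 * hsc
  have n2 : ‖Complex.sin (Real.pi * z)‖ ^ 2 = Real.sin (Real.pi * x) ^ 2 + s ^ 2 := by
    rw [hz, sin_pt, ← Complex.normSq_eq_norm_sq, Complex.normSq_mk]
    linear_combination Real.sin (Real.pi * x) ^ 2 * hC2 + Real.cos (Real.pi * x) ^ 2 * hS2 +
      s ^ 2 * hsc
  have c1 : s ≤ ‖Complex.cos (Real.pi * z)‖ := by
    refine le_of_sq_le_sq ?_ (norm_nonneg _)
    rw [n1]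
    nlinarith [sq_nonneg (Real.cos (Real.pi * x))]
  have c2 : ‖Complex.cos (Real.pi * z)‖ ≤ s + 1 := by
    refine le_of_sq_le_sq ?_ (by linarith)
    rw [n1]
    nlinarith [sq_nonneg (Real.sin (Real.pi * x))]
  have c3 : s ≤ ‖Complex.sin (Real.pi * z)‖ := by
    refine le_of_sq_le_sq ?_ (norm_nonneg _)
    rw [n2]
    nlinarith [sq_nonneg (Real.sin (Real.pi * x))]
  have nz : ‖z‖ ≤ 2 * a := by
    have h1 := Complex.norm_le_abs_re_add_abs_im z
    have h2 : |z.re| ≤ a := hx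
    have h3 : |z.im| = a := hy
    linarith
  -- the main term
  set M : ℂ := 1 / Real.pi * (1 / 2 - Complex.cos (Real.pi * z)) * Complex.sin (Real.pi * z) with hM
  have nM : 1 / Real.pi * (s - 1 / 2) * s ≤ ‖M‖ := by
    rw [hM, norm_mul, norm_mul, norm_div, norm_one, Complex.norm_real, Real.norm_eq_abs,
      abs_of_pos Real.pi_pos]
    have h1 : s - 1 / 2 ≤ ‖1 / 2 - Complex.cos (Real.pi * z)‖ := by
      have := norm_sub_norm_le (Complex.cos (Real.pi * z)) (1 / 2)
      rw [norm_sub_rev] at this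
      have h2 : ‖(1 / 2 : ℂ)‖ = 1 / 2 := by norm_num
      rw [h2] at this
      linarith
    have h3 : 0 ≤ s - 1 / 2 := by nlinarith
    gcongr
  have nR : ‖z / 2 + (z + 1 / 2) * ((1 - Complex.cos (Real.pi * z)) / 2)‖ ≤
      a + (2 * a + 1 / 2) * ((2 + s) / 2) := by
    have h2 : ‖(2 : ℂ)‖ = 2 := by norm_num
    have h3 : ‖z + 1 / 2‖ ≤ 2 * a + 1 / 2 := by
      refine (norm_add_le _ _).trans ?_
      have : ‖(1 / 2 : ℂ)‖ = 1 / 2 := by norm_num
      rw [this]; linarith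
    have h4 : ‖1 - Complex.cos (Real.pi * z)‖ ≤ 2 + s := by
      refine (norm_sub_le _ _).trans ?_
      rw [norm_one]; linarith
    calc _ ≤ ‖z / 2‖ + ‖(z + 1 / 2) * ((1 - Complex.cos (Real.pi * z)) / 2)‖ := norm_add_le _ _
      _ = ‖z‖ / 2 + ‖z + 1 / 2‖ * (‖1 - Complex.cos (Real.pi * z)‖ / 2) := by
          rw [norm_div, norm_mul, norm_div, h2]
      _ ≤ (2 * a) / 2 + (2 * a + 1 / 2) * ((2 + s) / 2) := by
          gcongr
      _ = _ := by ring
  have hfz : f₀ z = (z / 2 + (z + 1 / 2) * ((1 - Complex.cos (Real.pi * z)) / 2)) + M := by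
    unfold f₀; rw [hM]
  have n5 : ‖M‖ ≤ ‖f₀ z‖ + ‖z / 2 + (z + 1 / 2) * ((1 - Complex.cos (Real.pi * z)) / 2)‖ := by
    have : M = f₀ z - (z / 2 + (z + 1 / 2) * ((1 - Complex.cos (Real.pi * z)) / 2)) := by
      rw [hfz]; ring
    rw [this]
    exact norm_sub_le _ _
  -- arithmetic
  have h6 : 1 / 4 * (s - 1 / 2) * s ≤ 1 / Real.pi * (s - 1 / 2) * s := by
    have h3 : 0 ≤ s - 1 / 2 := by nlinarith
    have : 1 / 4 ≤ 1 / Real.pi := by
      rw [div_le_div_iff₀ (by norm_num) (by linarith)]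
      linarith
    gcongr
  have h7 : 1 ≤ 1 / 4 * (s - 1 / 2) - a - 1 / 4 := by nlinarith
  have h8 : s ≤ (1 / 4 * (s - 1 / 2) - a - 1 / 4) * s := by nlinarith
  nlinarith

theorem loop : S_LOOP := by
  intro R
  filter_upwards [eventually_ge_atTop (10 * (⌈|R|⌉₊ + 1) + 20)] with m hm z hz
  set a : ℝ := 2 * m + 1 / 2 with ha
  have hm' : (10 * ((⌈|R|⌉₊ : ℝ) + 1) + 20) ≤ m := by exact_mod_cast hm
  have hR : |R| ≤ (⌈|R|⌉₊ : ℝ) := Nat.le_ceil _
  have hR2 := le_abs_self R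
  have hR0 := abs_nonneg R
  have haR : R < a / 20 - 1 := by rw [ha]; linarith
  have haR2 : R < a := by rw [ha]; linarith
  have ha4 : 4 ≤ a := by rw [ha]; linarith
  have hze : z = ⟨z.re, z.im⟩ := rfl
  rw [hze]
  have hpia : Real.pi * a = (m : ℝ) * (2 * Real.pi) + Real.pi / 2 := by rw [ha]; ring
  have hcos : Real.cos (Real.pi * a) = 0 := by
    rw [hpia, add_comm, Real.cos_add_nat_mul_two_pi, Real.cos_pi_div_two]
  have hsin : Real.sin (Real.pi * a) = 1 := by
    rw [hpia, add_comm, Real.sin_add_nat_mul_two_pi, Real.sin_pi_div_two]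
  rcases le_total |z.re| |z.im| with h | h
  · rw [max_eq_right h] at hz
    have := side_h a ha4 z.re z.im hz (h.trans hz.le)
    linarith
  · rw [max_eq_left h] at hz
    rcases le_total 0 z.re with h0 | h0
    · rw [abs_of_nonneg h0] at hz
      have := side_v a (by linarith) 1 z.re z.im (Or.inl rfl) (by rw [hz, one_mul])
        (by rw [hz]; exact hcos) (by rw [hz]; exact hsin)
      linarith
    · rw [abs_of_nonpos h0] at hz
      have hz' : z.re = -a := by linarith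
      have := side_v a (by linarith) (-1) z.re z.im (Or.inr rfl) (by rw [hz']; ring)
        (by rw [hz', mul_neg, Real.cos_neg]; exact hcos)
        (by rw [hz', mul_neg, Real.sin_neg, hsin])
      linarith

end Pool.Agent.Y48.WD
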