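import Pool.Agent.Y48.WD.Dec

set_option autoImplicit false

/-! `S_NEAR` and `S_LOW`. -/

open Filter Topology Metric Set

namespace Pool.Agent.Y48.WD

open Pool.Agent.Y282.WD Pool.Agent.H723R2.LSW

theorem nhalf (m : ℤ) : ‖(m : ℂ) + 1 / 2‖ = |(m : ℝ) + 1 / 2| := by
  have : (m : ℂ) + 1 / 2 = (((m : ℝ) + 1 / 2 : ℝ) : ℂ) := by push_cast; ring
  rw [this, Complex.norm_real, Real.norm_eq_abs]

theorem half_le_bt (m : ℤ) : |(m : ℝ) + 1 / 2| ≤ bt m := by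
  unfold bt
  have h1 : (1 : ℝ) ≤ Real.pi ^ 2 / 4 := by nlinarith [Real.pi_gt_three]
  have h2 : 0 ≤ |(m : ℝ) + 1 / 2| := abs_nonneg _
  nlinarith

theorem bt_nonneg (m : ℤ) : 0 ≤ bt m := (abs_nonneg _).trans (half_le_bt m)

theorem near : S_NEAR := by
  obtain ⟨CA, hCA0, hCA⟩ := A_up
  obtain ⟨CB, hCB0, hCB⟩ := B_up
  obtain ⟨CE, hCE0, hCE⟩ := E_up
  refine ⟨CA + CB + CE + 1, by linarith, fun m z hz => ?_⟩
  obtain ⟨ε, hε, hdec⟩ := decomp m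
  set h : ℂ := z - m with hh
  have hz' : z = m + h := by rw [hh]; ring
  have hbt := bt_nonneg m
  have bA := (hCA h hz).2
  have bB := (hCB h hz).2
  have bE := hCE h hz
  have hhm := half_le_bt m
  set M : ℂ := ε / 2 * ((m : ℂ) + 1 / 2) * (Real.pi ^ 2 * h ^ 2 / 2) with hM
  have nM : ‖M‖ = bt m * ‖h‖ ^ 2 := by
    rw [hM, norm_mul, norm_mul, norm_div, norm_div, norm_mul, norm_pow, norm_pow, hε, nhalf,
      Complex.norm_real, Real.norm_eq_abs, abs_of_pos Real.pi_pos]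
    unfold bt
    have : ‖(2 : ℂ)‖ = 2 := by norm_num
    rw [this]
    ring
  have key : f₀ z - (T m : ℂ) - M = fA h + ε / 2 * fB h + ε / 2 * ((m : ℂ) + 1 / 2) *
      (fD h - Real.pi ^ 2 * h ^ 2 / 2) := by
    rw [hz', hdec h, hM]
    ring
  have n1 : ‖f₀ z - (T m : ℂ) - M‖ ≤ CA * ‖h‖ ^ 3 + 1 / 2 * (CB * ‖h‖ ^ 3) +
      1 / 2 * bt m * (CE * ‖h‖ ^ 4) := by
    rw [key]
    have hεn : ‖ε / 2‖ = 1 / 2 := by rw [norm_div, hε]; norm_num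
    calc _ ≤ ‖fA h‖ + ‖ε / 2 * fB h‖ + ‖ε / 2 * ((m : ℂ) + 1 / 2) *
          (fD h - Real.pi ^ 2 * h ^ 2 / 2)‖ := norm_add₃_le
      _ = ‖fA h‖ + 1 / 2 * ‖fB h‖ + 1 / 2 * |(m : ℝ) + 1 / 2| *
          ‖fD h - Real.pi ^ 2 * h ^ 2 / 2‖ := by
          rw [norm_mul, norm_mul, norm_mul, hεn, nhalf]
      _ ≤ _ := by gcongr
  have n2 : |‖f₀ z - (T m : ℂ)‖ - ‖M‖| ≤ ‖f₀ z - (T m : ℂ) - M‖ := abs_norm_sub_norm_le _ _
  rw [nM] at n2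
  refine n2.trans (n1.trans ?_)
  have h3 : 0 ≤ ‖h‖ ^ 3 := by positivity
  have h4 : 0 ≤ bt m * ‖h‖ ^ 4 := by positivity
  have e : (CA + CB + CE + 1) * ‖h‖ ^ 3 * (1 + bt m * ‖h‖) =
      (CA + CB + CE + 1) * ‖h‖ ^ 3 + (CA + CB + CE + 1) * (bt m * ‖h‖ ^ 4) := by ring
  rw [e]
  have e2 : CA * ‖h‖ ^ 3 + 1 / 2 * (CB * ‖h‖ ^ 3) + 1 / 2 * bt m * (CE * ‖h‖ ^ 4) =
      (CA + 1 / 2 * CB) * ‖h‖ ^ 3 + (1 / 2 * CE) * (bt m * ‖h‖ ^ 4) := by ring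
  rw [e2]
  have f1 : (CA + 1 / 2 * CB) * ‖h‖ ^ 3 ≤ (CA + CB + CE + 1) * ‖h‖ ^ 3 :=
    mul_le_mul_of_nonneg_right (by linarith) h3
  have f2 : (1 / 2 * CE) * (bt m * ‖h‖ ^ 4) ≤ (CA + CB + CE + 1) * (bt m * ‖h‖ ^ 4) :=
    mul_le_mul_of_nonneg_right (by linarith) h4
  linarith

theorem sin_low (w : ℂ) (hw : ‖w‖ ≤ 1) : ‖w‖ / 2 ≤ ‖Complex.sin w‖ := by
  have h1 := Complex.sin_bound hw
  have h2 : ‖w‖ ≤ ‖Complex.sin w‖ + ‖w ^ 3 / 6‖ + ‖Complex.sin w - (w - w ^ 3 / 6)‖ := by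
    have e : w = Complex.sin w + w ^ 3 / 6 + -(Complex.sin w - (w - w ^ 3 / 6)) := by ring
    calc ‖w‖ = ‖Complex.sin w + w ^ 3 / 6 + -(Complex.sin w - (w - w ^ 3 / 6))‖ := by rw [← e]
      _ ≤ ‖Complex.sin w‖ + ‖w ^ 3 / 6‖ + ‖-(Complex.sin w - (w - w ^ 3 / 6))‖ := norm_add₃_le
      _ = _ := by rw [norm_neg]
  have h3 : ‖w ^ 3 / 6‖ = ‖w‖ ^ 3 / 6 := by
    rw [norm_div, norm_pow]; norm_num
  rw [h3] at h2
  have h0 := norm_nonneg w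
  have h4 : ‖w‖ ^ 3 ≤ ‖w‖ := by
    calc ‖w‖ ^ 3 ≤ ‖w‖ ^ 1 := pow_le_pow_of_le_one h0 hw (by norm_num)
      _ = ‖w‖ := pow_one _
  have h5 : ‖w‖ ^ 5 ≤ ‖w‖ := by
    calc ‖w‖ ^ 5 ≤ ‖w‖ ^ 1 := pow_le_pow_of_le_one h0 hw (by norm_num)
      _ = ‖w‖ := pow_one _
  linarith

theorem cos_low (w : ℂ) (hw : ‖w‖ ≤ 1) : 1 / 4 ≤ ‖Complex.cos w‖ := by
  have h1 := Complex.cos_bound hw
  have h2 : (1 : ℝ) ≤ ‖Complex.cos w‖ + ‖w ^ 2 / 2‖ + ‖Complex.cos w - (1 - w ^ 2 / 2)‖ := by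
    have e : (1 : ℂ) = Complex.cos w + w ^ 2 / 2 + -(Complex.cos w - (1 - w ^ 2 / 2)) := by ring
    calc (1 : ℝ) = ‖(1 : ℂ)‖ := norm_one.symm
      _ = ‖Complex.cos w + w ^ 2 / 2 + -(Complex.cos w - (1 - w ^ 2 / 2))‖ := by rw [← e]
      _ ≤ ‖Complex.cos w‖ + ‖w ^ 2 / 2‖ + ‖-(Complex.cos w - (1 - w ^ 2 / 2))‖ := norm_add₃_le
      _ = _ := by rw [norm_neg]
  have h3 : ‖w ^ 2 / 2‖ = ‖w‖ ^ 2 / 2 := by
    rw [norm_div, norm_pow]; norm_num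
  rw [h3] at h2
  have h0 := norm_nonneg w
  have h4 : ‖w‖ ^ 2 ≤ 1 := pow_le_one₀ h0 hw
  have h5 : ‖w‖ ^ 4 ≤ 1 := pow_le_one₀ h0 hw
  linarith

theorem low : S_LOW := by
  obtain ⟨CA, hCA0, hCA⟩ := A_up
  obtain ⟨CB, hCB0, hCB⟩ := B_up
  refine ⟨1 / 8, by norm_num, 8 * (CA + CB) + 1, fun m hm z hz => ?_⟩
  obtain ⟨ε, hε, hdec⟩ := decomp m
  set h : ℂ := z - m with hh
  have hz' : z = m + h := by rw [hh]; ring
  have hz1 : ‖h‖ ≤ 1 := hz.trans (by norm_num)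
  have hbt := bt_nonneg m
  have hpi := Real.pi_pos
  have hpi4 := Real.pi_lt_four
  obtain ⟨dA1, bA⟩ := hCA h hz1
  obtain ⟨dB1, bB⟩ := hCB h hz1
  have h0 := norm_nonneg h
  have h32 : ‖h‖ ^ 3 ≤ ‖h‖ ^ 2 := pow_le_pow_of_le_one h0 hz1 (by norm_num)
  have h21 : ‖h‖ ^ 2 ≤ ‖h‖ := by
    calc ‖h‖ ^ 2 ≤ ‖h‖ ^ 1 := pow_le_pow_of_le_one h0 hz1 (by norm_num)
      _ = ‖h‖ := pow_one _
  have hεn : ‖ε / 2‖ = 1 / 2 := by rw [norm_div, hε]; norm_num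
  set w : ℂ := Real.pi * h / 2 with hw
  have nw : ‖w‖ = Real.pi * ‖h‖ / 2 := by
    rw [hw, norm_div, norm_mul, Complex.norm_real, Real.norm_eq_abs, abs_of_pos hpi]
    norm_num
  have hw1 : ‖w‖ ≤ 1 := by
    rw [nw]
    nlinarith
  have s1 := sin_low w hw1
  have c1 := cos_low w hw1
  have hw2 : (Real.pi : ℂ) * h = 2 * w := by rw [hw]; ring
  have eD : fD h = 2 * Complex.sin w ^ 2 := by
    unfold fD
    rw [hw2, Complex.cos_two_mul]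
    have := Complex.sin_sq_add_cos_sq w
    linear_combination (-2) * this
  have eD' : Complex.sin (Real.pi * h) = 2 * Complex.sin w * Complex.cos w := by
    rw [hw2, Complex.sin_two_mul]
  have nD : Real.pi ^ 2 / 8 * ‖h‖ ^ 2 ≤ ‖fD h‖ := by
    rw [eD, norm_mul, norm_pow]
    have e2 : ‖(2 : ℂ)‖ = 2 := by norm_num
    rw [e2]
    calc Real.pi ^ 2 / 8 * ‖h‖ ^ 2 = 2 * (‖w‖ / 2) ^ 2 := by rw [nw]; ring
      _ ≤ 2 * ‖Complex.sin w‖ ^ 2 := by gcongr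
  have nD' : Real.pi ^ 2 / 8 * ‖h‖ ≤ ‖Real.pi * Complex.sin (Real.pi * h)‖ := by
    rw [eD', norm_mul, norm_mul, norm_mul, Complex.norm_real, Real.norm_eq_abs, abs_of_pos hpi]
    have e2 : ‖(2 : ℂ)‖ = 2 := by norm_num
    rw [e2]
    calc Real.pi ^ 2 / 8 * ‖h‖ = Real.pi * (2 * (‖w‖ / 2) * (1 / 4)) := by rw [nw]; ring
      _ ≤ Real.pi * (2 * ‖Complex.sin w‖ * ‖Complex.cos w‖) := by gcongr
  constructor
  · have e : f₀ z - (T m : ℂ) = fA h + ε / 2 * fB h + ε / 2 * ((m : ℂ) + 1 / 2) * fD h := by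
      rw [hz', hdec h]
    have n1 : ‖ε / 2 * ((m : ℂ) + 1 / 2) * fD h‖ ≤ ‖f₀ z - (T m : ℂ)‖ + ‖fA h‖ +
        ‖ε / 2 * fB h‖ := by
      have e3 : ε / 2 * ((m : ℂ) + 1 / 2) * fD h = (f₀ z - (T m : ℂ)) + -fA h +
          -(ε / 2 * fB h) := by rw [e]; ring
      rw [e3]
      refine norm_add₃_le.trans ?_
      rw [norm_neg, norm_neg]
    rw [norm_mul, norm_mul, norm_mul, hεn, nhalf] at n1
    have n2 : 1 / 2 * |(m : ℝ) + 1 / 2| * (Real.pi ^ 2 / 8 * ‖h‖ ^ 2) ≤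
        1 / 2 * |(m : ℝ) + 1 / 2| * ‖fD h‖ := by gcongr
    have n3 : 1 / 2 * |(m : ℝ) + 1 / 2| * (Real.pi ^ 2 / 8 * ‖h‖ ^ 2) = bt m / 4 * ‖h‖ ^ 2 := by
      unfold bt; ring
    have n4 : CA * ‖h‖ ^ 3 ≤ CA * ‖h‖ ^ 2 := by gcongr
    have n5 : CB * ‖h‖ ^ 3 ≤ CB * ‖h‖ ^ 2 := by gcongr
    have n6 : (8 * (CA + CB) + 1) * ‖h‖ ^ 2 ≤ bt m * ‖h‖ ^ 2 := by gcongr
    have n7 : 0 ≤ ‖h‖ ^ 2 := by positivity
    nlinarith [mul_nonneg hCB0 n7]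
  · intro hne
    have hh0 : h ≠ 0 := sub_ne_zero.2 hne
    have hpos : 0 < ‖h‖ := norm_pos_iff.2 hh0
    -- the derivative
    have hder : HasDerivAt f₀ (2 * Complex.sin (Real.pi * h) ^ 2 +
        ε / 2 * (Real.pi * h * Complex.sin (Real.pi * h)) +
        ε / 2 * ((m : ℂ) + 1 / 2) * (Real.pi * Complex.sin (Real.pi * h))) z := by
      have g1 : f₀ = fun x : ℂ => (fA (x - m) + ε / 2 * fB (x - m) +
          ε / 2 * ((m : ℂ) + 1 / 2) * fD (x - m)) + (T m : ℂ) := by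
        funext x
        rw [← hdec (x - m)]
        have : (m : ℂ) + (x - m) = x := by ring
        rw [this]
        ring
      rw [g1]
      have k1 : HasDerivAt (fun x : ℂ => fA (x - m)) (2 * Complex.sin (Real.pi * h) ^ 2) z :=
        HasDerivAt.comp_sub_const z (m : ℂ) (dA (z - m))
      have k2 : HasDerivAt (fun x : ℂ => fB (x - m)) (Real.pi * h * Complex.sin (Real.pi * h)) z :=
        HasDerivAt.comp_sub_const z (m : ℂ) (dB (z - m))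
      have k3 : HasDerivAt (fun x : ℂ => fD (x - m)) (Real.pi * Complex.sin (Real.pi * h)) z :=
        HasDerivAt.comp_sub_const z (m : ℂ) (dD (z - m))
      exact ((k1.add (k2.const_mul _)).add (k3.const_mul _)).add_const _
    rw [hder.deriv]
    intro hzero
    have n1 : ‖ε / 2 * ((m : ℂ) + 1 / 2) * (Real.pi * Complex.sin (Real.pi * h))‖ ≤
        ‖2 * Complex.sin (Real.pi * h) ^ 2‖ +
        ‖ε / 2 * (Real.pi * h * Complex.sin (Real.pi * h))‖ := by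
      have e3 : ε / 2 * ((m : ℂ) + 1 / 2) * (Real.pi * Complex.sin (Real.pi * h)) =
          -(2 * Complex.sin (Real.pi * h) ^ 2) +
          -(ε / 2 * (Real.pi * h * Complex.sin (Real.pi * h))) := by
        linear_combination hzero
      rw [e3]
      refine (norm_add_le _ _).trans ?_
      rw [norm_neg, norm_neg]
    rw [norm_mul, norm_mul (ε / 2), norm_mul (ε / 2), hεn, nhalf] at n1
    have n2 : 1 / 2 * |(m : ℝ) + 1 / 2| * (Real.pi ^ 2 / 8 * ‖h‖) ≤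
        1 / 2 * |(m : ℝ) + 1 / 2| * ‖Real.pi * Complex.sin (Real.pi * h)‖ := by gcongr
    have n3 : 1 / 2 * |(m : ℝ) + 1 / 2| * (Real.pi ^ 2 / 8 * ‖h‖) = bt m / 4 * ‖h‖ := by
      unfold bt; ring
    have n4 : CA * ‖h‖ ^ 2 ≤ CA * ‖h‖ := by gcongr
    have n5 : CB * ‖h‖ ^ 2 ≤ CB * ‖h‖ := by gcongr
    have n6 : (8 * (CA + CB) + 1) * ‖h‖ ≤ bt m * ‖h‖ := by gcongr
    nlinarith [mul_nonneg hCB0 h0, mul_nonneg hCA0 h0]

end Pool.Agent.Y48.WD
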